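import Pool.Agent.helper78.FS.Spec

/-!
Row GDG of the project FS (MP_55808c_co): the grid has degree one at the pole.   helper74
-/

namespace Pool.Agent.helper78.FS

open Finset Real

noncomputable section

/-- longitude of the column `i` -/
def GDG_ph (n : ℕ) (i : ZMod (2 * n)) : ℝ := ((i.val : ℝ) + 1 / 2) * π / n

theorem GDG_det (hG : GCO_stmt) (t r : ℝ) (n : ℕ) [NeZero n] (hr : 0 < r) (i i' : ZMod (2 * n))
    (j j' : ℕ) :
    yc (gr t r n i' j') * xc t (gr t r n i j) - yc (gr t r n i j) * xc t (gr t r n i' j') =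
      r ^ 2 * (sin (j * π / n) * sin (j' * π / n)) * sin (GDG_ph n i' - GDG_ph n i) := by
  obtain ⟨h1, h2, -⟩ := hG t r n hr.le i j
  obtain ⟨h1', h2', -⟩ := hG t r n hr.le i' j'
  rw [h1, h2, h1', h2', Real.sin_sub]
  unfold GDG_ph
  ring

theorem GDG_kap_eq_zero {t : ℝ} {a b : E3}
    (h : yc b * xc t a - yc a * xc t b = 0) : kap t a b = 0 := by
  unfold kap crs
  have h' : yc a * xc t b - yc b * xc t a = 0 := by linarith
  rw [h, h']
  simp

theorem GDG_kap_same (hG : GCO_stmt) (t r : ℝ) (n : ℕ) [NeZero n] (hr : 0 < r)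
    (i : ZMod (2 * n)) (j j' : ℕ) : kap t (gr t r n i j) (gr t r n i j') = 0 := by
  apply GDG_kap_eq_zero
  rw [GDG_det hG t r n hr]
  simp

theorem GDG_kap_left (hG : GCO_stmt) (t r : ℝ) (n : ℕ) [NeZero n] (hr : 0 < r)
    (i i' : ZMod (2 * n)) (j' : ℕ) : kap t (gr t r n i 0) (gr t r n i' j') = 0 := by
  apply GDG_kap_eq_zero
  rw [GDG_det hG t r n hr]
  simp

theorem GDG_kap_right (hG : GCO_stmt) (t r : ℝ) (n : ℕ) [NeZero n] (hr : 0 < r)
    (i i' : ZMod (2 * n)) (j : ℕ) : kap t (gr t r n i j) (gr t r n i' 0) = 0 := by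
  apply GDG_kap_eq_zero
  rw [GDG_det hG t r n hr]
  simp

theorem GDG_kap_comm (t : ℝ) (a b : E3) : kap t a b = kap t b a := by
  unfold kap
  by_cases h : crs t a b ∨ crs t b a
  · rw [if_pos h, if_pos (or_comm.mp h)]
  · rw [if_neg h, if_neg (fun h' => h (or_comm.mp h'))]

theorem GDG_sin_pos (n : ℕ) [NeZero n] (j : ℕ) (h0 : 0 < j) (h1 : j < n) :
    0 < sin (j * π / n) := by
  have hn : (0 : ℝ) < n := by
    have := Nat.pos_of_ne_zero (NeZero.ne n)
    exact_mod_cast this
  apply Real.sin_pos_of_pos_of_lt_pi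
  · have : (0 : ℝ) < j := by exact_mod_cast h0
    positivity
  · rw [div_lt_iff₀ hn]
    have : (j : ℝ) < n := by exact_mod_cast h1
    nlinarith [Real.pi_pos]

/-- `sin φ > 0` in the first half -/
theorem GDG_ph_pos (n : ℕ) [NeZero n] (i : ZMod (2 * n)) (h : i.val < n) :
    0 < sin (GDG_ph n i) := by
  have hn : (0 : ℝ) < n := by
    have := Nat.pos_of_ne_zero (NeZero.ne n)
    exact_mod_cast this
  unfold GDG_ph
  have hi : (0 : ℝ) ≤ i.val := Nat.cast_nonneg _
  apply Real.sin_pos_of_pos_of_lt_pi
  · have := Real.pi_pos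
    positivity
  · rw [div_lt_iff₀ hn]
    have : (i.val : ℝ) + 1 ≤ n := by exact_mod_cast h
    nlinarith [Real.pi_pos]

/-- `sin φ < 0` in the second half -/
theorem GDG_ph_neg (n : ℕ) [NeZero n] (i : ZMod (2 * n)) (h : n ≤ i.val) :
    sin (GDG_ph n i) < 0 := by
  have hn0 : 0 < n := Nat.pos_of_ne_zero (NeZero.ne n)
  have hn : (0 : ℝ) < n := by exact_mod_cast hn0
  have h2 : i.val < 2 * n := ZMod.val_lt i
  have hh : (n : ℝ) ≤ i.val := by exact_mod_cast h
  have hh2 : (i.val : ℝ) + 1 ≤ 2 * n := by exact_mod_cast h2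
  have key : 0 < sin (GDG_ph n i - π) := by
    apply Real.sin_pos_of_pos_of_lt_pi
    · unfold GDG_ph
      rw [sub_pos, lt_div_iff₀ hn]
      nlinarith [Real.pi_pos]
    · unfold GDG_ph
      rw [sub_lt_iff_lt_add, div_lt_iff₀ hn]
      nlinarith [Real.pi_pos]
  rw [Real.sin_sub_pi] at key
  linarith

theorem GDG_val_succ (n : ℕ) [NeZero n] (i : ZMod (2 * n)) :
    (i + 1).val = (i.val + 1) % (2 * n) := by
  rw [ZMod.val_add, ZMod.val_one'' (by omega)]

/-- the crossing of two neighbouring columns -/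
theorem GDG_kap_step (hG : GCO_stmt) (t r : ℝ) (n : ℕ) [NeZero n] (hr : 0 < r) (hn3 : 3 ≤ n)
    (i : ZMod (2 * n)) (j j' : ℕ) (h0 : 0 < j) (h1 : j < n) (h0' : 0 < j') (h1' : j' < n) :
    kap t (gr t r n i j) (gr t r n (i + 1) j') = if i.val = 2 * n - 1 then 1 else 0 := by
  have hn : (0 : ℝ) < n := by
    have := Nat.pos_of_ne_zero (NeZero.ne n)
    exact_mod_cast this
  have hs := GDG_sin_pos n j h0 h1
  have hs' := GDG_sin_pos n j' h0' h1'
  have hP : 0 < r ^ 2 * (sin (j * π / n) * sin (j' * π / n)) := by positivity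
  have hP' : 0 < r ^ 2 * (sin (j' * π / n) * sin (j * π / n)) := by positivity
  have hy : yc (gr t r n i j) = (r * sin (j * π / n)) * sin (GDG_ph n i) :=
    (hG t r n hr.le i j).2.1
  have hy' : yc (gr t r n (i + 1) j') = (r * sin (j' * π / n)) * sin (GDG_ph n (i + 1)) :=
    (hG t r n hr.le (i + 1) j').2.1
  have hlt : i.val < 2 * n := ZMod.val_lt i
  have hsucc := GDG_val_succ n i
  have hpn : 0 < sin (π / n) := by
    have := GDG_sin_pos n 1 one_pos (by omega)
    simpa using this
  unfold kap crs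
  rw [GDG_det hG t r n hr, GDG_det hG t r n hr, hy, hy']
  by_cases hi : i.val = 2 * n - 1
  · -- the crossing column
    rw [if_pos hi]
    have hv : (i + 1).val = 0 := by
      rw [hsucc, hi]
      have : 2 * n - 1 + 1 = 2 * n := by omega
      rw [this, Nat.mod_self]
    have hneg := GDG_ph_neg n i (by omega)
    have hpos := GDG_ph_pos n (i + 1) (by omega)
    have hd : GDG_ph n (i + 1) - GDG_ph n i = π / n - 2 * π := by
      unfold GDG_ph
      rw [hv, hi]
      have : ((2 * n - 1 : ℕ) : ℝ) = 2 * n - 1 := by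
        rw [Nat.cast_sub (by omega)]
        push_cast
        ring
      rw [this]
      push_cast
      field_simp
      ring
    rw [hd, Real.sin_sub_two_pi]
    rw [if_pos]
    left
    refine ⟨?_, ?_, ?_⟩
    · have : 0 < r * sin (j * π / n) := by positivity
      exact mul_neg_of_pos_of_neg this hneg
    · positivity
    · positivity
  · rw [if_neg hi]
    have hv : (i + 1).val = i.val + 1 := by
      rw [hsucc, Nat.mod_eq_of_lt (by omega)]
    have hd : GDG_ph n (i + 1) - GDG_ph n i = π / n := by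
      unfold GDG_ph
      rw [hv]
      push_cast
      field_simp
      ring
    have hd' : GDG_ph n i - GDG_ph n (i + 1) = - (π / n) := by
      rw [← hd]; ring
    rw [hd', hd, Real.sin_neg]
    rw [if_neg]
    rintro (⟨ha, hb, -⟩ | ⟨-, -, hc⟩)
    · -- sin φ_i < 0 so i.val ≥ n, and then (i+1).val ≥ n
      have hin : n ≤ i.val := by
        by_contra hcon
        push Not at hcon
        have hpos := GDG_ph_pos n i hcon
        have : 0 < r * sin (j * π / n) * sin (GDG_ph n i) := by positivity
        linarith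
      have hneg := GDG_ph_neg n (i + 1) (by omega)
      have : r * sin (j' * π / n) * sin (GDG_ph n (i + 1)) < 0 :=
        mul_neg_of_pos_of_neg (by positivity) hneg
      linarith
    · have : 0 < r ^ 2 * (sin (j' * π / n) * sin (j * π / n)) * sin (π / n) := by positivity
      linarith

theorem GDG_add_self (x : ZMod 2) : x + x = 0 := CharTwo.add_self_eq_zero x

theorem GDG : GDG_stmt := by
  intro hG t r n _ hr hn3
  have hn0 : 0 < n := by omega
  have hn : (0 : ℝ) < n := by exact_mod_cast hn0
  have hlast : ((-1 : ZMod (2 * n))).val = 2 * n - 1 := by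
    obtain ⟨m, hm⟩ : ∃ m, 2 * n = m + 1 := ⟨2 * n - 1, by omega⟩
    rw [hm]
    exact ZMod.val_neg_one m
  rw [Finset.sum_eq_single ((-1 : ZMod (2 * n)), (⟨0, hn0⟩ : Fin n), true)]
  · -- the special triangle
    have e1 : ta (gr t r n) ((-1 : ZMod (2 * n)), (⟨0, hn0⟩ : Fin n), true) =
        gr t r n (-1 + 1) 1 := by
      simp [ta]
    have e2 : tb (gr t r n) ((-1 : ZMod (2 * n)), (⟨0, hn0⟩ : Fin n), true) =
        gr t r n (-1) 1 := by
      simp [tb]
    have e3 : tc (gr t r n) ((-1 : ZMod (2 * n)), (⟨0, hn0⟩ : Fin n), true) =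
        gr t r n (-1) 0 := by
      simp [tc]
    rw [e1, e2, e3]
    have hz1 : ∀ i : ZMod (2 * n), 0 < zc t (gr t r n i 1) := by
      intro i
      rw [(hG t r n hr.le i 1).2.2.1]
      apply mul_pos hr
      apply Real.cos_pos_of_mem_Ioo
      constructor
      · have := Real.pi_pos
        have h2 : 0 < ((1 : ℕ) : ℝ) * π / n := by positivity
        linarith
      · rw [div_lt_div_iff₀ hn two_pos]
        have : (3 : ℝ) ≤ n := by exact_mod_cast hn3
        push_cast
        nlinarith [Real.pi_pos]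
    have hz0 : 0 < zc t (gr t r n (-1) 0) := by
      rw [(hG t r n hr.le (-1) 0).2.2.1]
      simp [hr]
    unfold om
    rw [if_pos ⟨hz1 _, hz1 _, hz0⟩]
    unfold dkap
    rw [GDG_kap_same hG t r n hr, GDG_kap_right hG t r n hr, GDG_kap_comm,
      GDG_kap_step hG t r n hr hn3 (-1) 1 1 one_pos (by omega) one_pos (by omega), if_pos hlast]
    simp
  · -- the other triangles
    rintro ⟨i, ⟨j, hj⟩, b⟩ - hne
    unfold om
    split_ifs with hz
    swap
    · rfl
    obtain ⟨hza, hzb, hzc⟩ := hz
    -- the last row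
    have hjn : j + 1 < n := by
      by_contra hcon
      have hjn : j + 1 = n := by omega
      have hzlast : ∀ i : ZMod (2 * n), zc t (gr t r n i (j + 1)) < 0 := by
        intro i
        rw [(hG t r n hr.le i (j + 1)).2.2.1, hjn]
        have : (n : ℝ) * π / n = π := by field_simp
        rw [this, Real.cos_pi]
        linarith
      cases b with
      | false =>
        have := hzlast (i + 1)
        have h2 : tc (gr t r n) (i, (⟨j, hj⟩ : Fin n), false) = gr t r n (i + 1) (j + 1) := by
          simp [tc]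
        rw [h2] at hzc
        linarith
      | true =>
        have := hzlast (i + 1)
        have h2 : ta (gr t r n) (i, (⟨j, hj⟩ : Fin n), true) = gr t r n (i + 1) (j + 1) := by
          simp [ta]
        rw [h2] at hza
        linarith
    clear hza hzb hzc
    cases b with
    | false =>
      have e1 : ta (gr t r n) (i, (⟨j, hj⟩ : Fin n), false) = gr t r n i j := by simp [ta]
      have e2 : tb (gr t r n) (i, (⟨j, hj⟩ : Fin n), false) = gr t r n (i + 1) j := by simp [tb]
      have e3 : tc (gr t r n) (i, (⟨j, hj⟩ : Fin n), false) = gr t r n (i + 1) (j + 1) := by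
        simp [tc]
      rw [e1, e2, e3]
      unfold dkap
      rcases Nat.eq_zero_or_pos j with rfl | hj0
      · rw [GDG_kap_left hG t r n hr, GDG_kap_left hG t r n hr, GDG_kap_left hG t r n hr]
        simp
      · rw [GDG_kap_same hG t r n hr,
          GDG_kap_step hG t r n hr hn3 i j j hj0 (by omega) hj0 (by omega),
          GDG_kap_step hG t r n hr hn3 i j (j + 1) hj0 (by omega) (by omega) (by omega), add_zero]
        exact GDG_add_self _
    | true =>
      have e1 : ta (gr t r n) (i, (⟨j, hj⟩ : Fin n), true) = gr t r n (i + 1) (j + 1) := by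
        simp [ta]
      have e2 : tb (gr t r n) (i, (⟨j, hj⟩ : Fin n), true) = gr t r n i (j + 1) := by simp [tb]
      have e3 : tc (gr t r n) (i, (⟨j, hj⟩ : Fin n), true) = gr t r n i j := by simp [tc]
      rw [e1, e2, e3]
      unfold dkap
      rw [GDG_kap_same hG t r n hr, GDG_kap_comm t (gr t r n (i + 1) (j + 1)),
        GDG_kap_comm t (gr t r n (i + 1) (j + 1)),
        GDG_kap_step hG t r n hr hn3 i (j + 1) (j + 1) (by omega) (by omega) (by omega) (by omega)]
      rcases Nat.eq_zero_or_pos j with rfl | hj0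
      · rw [GDG_kap_left hG t r n hr]
        have hi : i.val ≠ 2 * n - 1 := by
          intro hi
          apply hne
          have : i = -1 := by
            apply ZMod.val_injective (2 * n)
            rw [hi, hlast]
          rw [this]
        rw [if_neg hi]
        simp
      · rw [GDG_kap_step hG t r n hr hn3 i j (j + 1) hj0 (by omega) (by omega) (by omega), add_zero]
        exact GDG_add_self _
  · intro h
    exact absurd (Finset.mem_univ _) h

end

end Pool.Agent.helper78.FS
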